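import Pool.Agent.Lib.MP_3f0e2e_al.ZMain

namespace Pool.Agent.Results.MP_3f0e2e_al.ResiduallySolvable

open Pool.Agent.Lib.MP_3f0e2e_al

/-- A one-relator group whose relator is a basic commutator is residually solvable; even its
integral derived series has trivial intersection. -/
theorem result (n : ℕ) (lt : FreeMagma (Fin n) → FreeMagma (Fin n) → Prop) (hlt : Admissible lt)
    (c : FreeMagma (Fin n)) (hc : Basic lt c) :
    ResSolvable (PresentedGroup {ev FreeGroup.of c}) ∧
      ⨅ k, zSeries (PresentedGroup {ev FreeGroup.of c}) k = ⊥ :=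
  ⟨(rs_hall _ _ _ id Function.injective_id lt c le_rfl (hc.hall hlt)).exists_solvable,
    (Subgroup.eq_bot_iff_forall _).2 fun g hg =>
      Zs.rs_hall _ _ _ id Function.injective_id lt c le_rfl (hc.hall hlt) g
        (Subgroup.mem_iInf.1 hg)⟩

open scoped commutatorElement in
/-- Every series whose factors are torsion modulo commutators, such as the rational derived
series, lies inside the integral derived series. -/
theorem rational (G : Type) [Group G] (D : ℕ → Subgroup G)
    (hD : ∀ k, ∀ g ∈ D (k + 1), g ∈ D k ∧ ∃ m : ℕ, m ≠ 0 ∧ g ^ m ∈ ⁅D k, D k⁆) (k : ℕ) :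
    D k ≤ zSeries G k := by
  induction k with
  | zero => exact le_top
  | succ k ih =>
    intro g hg
    obtain ⟨h1, m, h2, h3⟩ := hD k g hg
    refine Zs.mem_succ.2 ⟨ih h1, fun f => ?_⟩
    have h4 : ⁅D k, D k⁆ ≤ f.ker.map (zSeries G k).subtype :=
      Subgroup.commutator_le.2 fun a ha b hb => ⟨⁅(⟨a, ih ha⟩ : zSeries G k), ⟨b, ih hb⟩⁆,
        Abelianization.commutator_subset_ker f
          (Subgroup.commutator_mem_commutator (Subgroup.mem_top _) (Subgroup.mem_top _)), rfl⟩
    obtain ⟨x, hx, h5⟩ := h4 h3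
    have h6 : f ⟨g, ih h1⟩ ^ m = 1 := by
      rw [← map_pow, show (⟨g, ih h1⟩ : zSeries G k) ^ m = x from Subtype.ext h5.symm]
      exact hx
    exact (pow_eq_one_iff_left h2).1 h6

end Pool.Agent.Results.MP_3f0e2e_al.ResiduallySolvable
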